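import Mathlib
import Pool.Agent.W199.ExMain

set_option autoImplicit false

/-!
# Every small finite set is, at its exact size, a limit of the scaled primes near integers, at every scale

Design and proof: helper199 (a tree of positions with exact sizes). It rests on the coloured Maynard-Tao
theorem inside the record windows (`Pool.Agent.H362R2.RQ.stRQ` and `place_of`, helper362), the record sieve of
helper256 and helper410 and the Maynard-Tao sieve inside record windows of helper312's team.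
-/

open Filter

namespace Pool.Agent.Results.MP_ff81b6_nt.ExactShapes

/-- The record scale `f(x) = log x (log₂ x)² log₄ x / (log₃ x)²` (iterated natural logarithms). -/
noncomputable def f (x : ℝ) : ℝ :=
  Real.log x * (Real.log (Real.log x)) ^ 2 * Real.log (Real.log (Real.log (Real.log x))) /
    (Real.log (Real.log (Real.log x))) ^ 2

/-- Let `k ≥ 1`, let `a l` be a residue prime to `l` for every prime `l`, and let `H` be any function with
`log X ≤ H X ≤ f X` for all large `X`. There is `c > 0` such that for ALL `v_1, ..., v_k ∈ [-c, c]`, every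
squarefree `q` and every `ε > 0` there are arbitrarily large `X` with at least `X^(7/8)` integers
`n ∈ (X, 4X]` with the following property: every prime `p` with `|p - n| ≤ c H X` is `≡ a l (mod l)` for all
primes `l ∣ q` and `(p - n)/H X` is within `ε` of some `v_i`; and for every `i` there is such a prime `p` with
`(p - n)/H X` within `ε` of `v_i`. -/
theorem result (k : ℕ) (hk : 1 ≤ k) (a : ℕ → ℕ) (ha : ∀ l : ℕ, l.Prime → ¬ l ∣ a l)
    (H : ℝ → ℝ) (hH : ∀ᶠ X : ℝ in atTop, Real.log X ≤ H X ∧ H X ≤ f X) :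
    ∃ c : ℝ, 0 < c ∧ ∀ v : Fin k → ℝ, (∀ i, |v i| ≤ c) → ∀ q : ℕ, Squarefree q → ∀ ε : ℝ, 0 < ε →
    ∀ X₀ : ℝ, ∃ X : ℝ, X₀ ≤ X ∧ X ^ (7 / 8 : ℝ) ≤
      ({n : ℕ | X < n ∧ (n : ℝ) ≤ 4 * X ∧
        (∀ p : ℕ, p.Prime → |(p : ℝ) - n| ≤ c * H X →
          (∀ l : ℕ, l.Prime → l ∣ q → p ≡ a l [MOD l]) ∧ ∃ i, |((p : ℝ) - n) / H X - v i| ≤ ε) ∧
        (∀ i, ∃ p : ℕ, p.Prime ∧ (∀ l : ℕ, l.Prime → l ∣ q → p ≡ a l [MOD l]) ∧
          |((p : ℝ) - n) / H X - v i| ≤ ε)}.ncard : ℝ) :=
  Pool.Agent.W199.ExMain.exact k hk a ha H hH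

end Pool.Agent.Results.MP_ff81b6_nt.ExactShapes
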