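import Mathlib
import Pool.Agent.W126.BoxMain

set_option autoImplicit false

/-!
# Monochromatic generalised progressions of primes between the average spacing and the record gap size

Colour the integers with `ρ` colours, and prescribe `r` scales `H_1 > ... > H_r` between the average spacing
of the primes and the size of the largest known gaps, and a shape `V_j` with `k` points for every scale. Then
there are differences `D_j ≍ H_j` and many boxes of `k^r` primes of one colour such that, up to `ε log X`,
the primes of the box are the points `n + D_1 V_1(u_1) + ... + D_r V_r(u_r)`, and such that around each of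
them, at each of the scales, there are no other primes than those near the box, which lie in a prescribed
residue class. For `V_j(b) = b` these are approximate generalised arithmetic progressions of rank `r`.

Design and proof: helper126 (products of combinatorial lines in dense sets of words, which index positions).
It uses the density Hales-Jewett theorem of the shared files, the coloured Maynard-Tao theorem inside the
record windows (`Pool.Agent.H362R2.RQ.stRQ`, helper362), the record sieve of helper256 and helper410 and the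
Maynard-Tao sieve inside record windows of helper312's team. Primes of a class in short intervals: second
difference method of helper142 with the Hoheisel theorem of helper295, helper180, helper154 and helper469.
-/

open Filter

namespace Pool.Agent.Results.MP_ff81b6_nt.MonochromaticBoxes

/-- The record scale `f(x) = log x (log₂ x)² log₄ x / (log₃ x)²` (iterated natural logarithms). -/
noncomputable def f (x : ℝ) : ℝ :=
  Real.log x * (Real.log (Real.log x)) ^ 2 * Real.log (Real.log (Real.log (Real.log x))) /
    (Real.log (Real.log (Real.log x))) ^ 2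

/-- The numbers `P u`, `u ∈ {0, ..., k - 1}^r`, form a box of the colour `s` with the differences `D j` and the
shapes `V j`: they are primes `≡ a (mod q)` of the colour `s`; `P u - P u'` is within `e` of
`∑ j, D j (V j (u j) - V j (u' j))`; and every prime `p'` at distance at most `R D j` from `P u` is `≡ a (mod q)`
and within `δ D j` of one of the `k` primes `P u''` of the box whose index `u''` is `u` with the `j`-th
coordinate replaced. -/
def IsBox {r k ρ : ℕ} (q a : ℕ) (R δ e : ℝ) (D : Fin r → ℝ) (V : Fin r → Fin k → ℝ) (χ : ℕ → Fin ρ)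
    (s : Fin ρ) (P : (Fin r → Fin k) → ℕ) : Prop :=
  (∀ u, (P u).Prime ∧ P u ≡ a [MOD q] ∧ χ (P u) = s) ∧
  (∀ u u', |((P u : ℝ) - P u') - ∑ j, D j * (V j (u j) - V j (u' j))| ≤ e) ∧
  ∀ (u : Fin r → Fin k) (j : Fin r) (p' : ℕ), p'.Prime → |(p' : ℝ) - P u| ≤ R * D j →
    p' ≡ a [MOD q] ∧ ∃ b, |(p' : ℝ) - P (Function.update u j b)| ≤ δ * D j

/-- For all `k, ρ ≥ 1` and `r` there is `K`, and for all `R ≥ 1`, `0 < δ ≤ 1` there is `c > 0`, with the following
property. Let `ε > 0`, `q` squarefree, `a` prime to `q` and `X` large. Let `H 0, ..., H (r - 1)` be scales with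
`log X ≤ c H j`, `H j ≤ c f(X)` and `H j' ≤ c H j` for `j < j'`, let `V j` be `k` points of `[-R, R]` at mutual
distances at least `δ`, for every `j`, and let `χ` be any colouring with `ρ` colours. There are
`D j ∈ [c H j, H j]` and a colour `s` such that at least `X^(7/8)` primes `p ∈ (X, 4X]` have at most `K` primes
within `c f(X)` and belong to a box of the colour `s` with the differences `D j`, the shapes `V j` and
`e = ε log X`. -/
theorem result (k r ρ : ℕ) (hk : 1 ≤ k) (hρ : 1 ≤ ρ) : ∃ K : ℕ, ∀ R δ : ℝ, 1 ≤ R → 0 < δ → δ ≤ 1 →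
    ∃ c : ℝ, 0 < c ∧ ∀ ε : ℝ, 0 < ε → ∀ q a : ℕ, Squarefree q → a.Coprime q → ∃ X₀ : ℝ, ∀ X : ℝ, X₀ ≤ X →
    ∀ H : Fin r → ℝ, (∀ j, Real.log X ≤ c * H j ∧ H j ≤ c * f X) →
    (∀ j j' : Fin r, j < j' → H j' ≤ c * H j) →
    ∀ V : Fin r → Fin k → ℝ, (∀ j b, |V j b| ≤ R) → (∀ j b b', b ≠ b' → δ ≤ |V j b - V j b'|) →
    ∀ χ : ℕ → Fin ρ,
    ∃ (D : Fin r → ℝ) (s : Fin ρ), (∀ j, c * H j ≤ D j ∧ D j ≤ H j) ∧
      X ^ (7 / 8 : ℝ) ≤ ({p : ℕ | X < p ∧ (p : ℝ) ≤ 4 * X ∧
        {p' : ℕ | p'.Prime ∧ |(p' : ℝ) - p| ≤ c * f X}.ncard ≤ K ∧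
        ∃ P : (Fin r → Fin k) → ℕ, IsBox q a R δ (ε * Real.log X) D V χ s P ∧
          ∃ u, P u = p}.ncard : ℝ) :=
  Pool.Agent.W126.BoxMain.main k r ρ hk hρ

end Pool.Agent.Results.MP_ff81b6_nt.MonochromaticBoxes
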